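import Pool.Agent.helper88.PF.Spec

set_option linter.unusedVariables false

namespace PF

noncomputable section

theorem CBR_append_true (M : (ℕ → List Prop) → Prop) : ∀ (q : List Bool) (c : ℕ → List Prop),
    Qm (q ++ [true]) M c ↔
      Qm q (fun c => ∀ x : ℕ → Prop, CE x → M (fun p => x p :: c p)) c := by
  intro q
  induction q with
  | nil => intro c; exact Iff.rfl
  | cons b q ih =>
    intro c
    cases b with
    | true => exact forall_congr' fun x => imp_congr Iff.rfl (ih _)
    | false => exact exists_congr fun x => and_congr Iff.rfl (ih _)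

theorem CBR_append_false (M : (ℕ → List Prop) → Prop) : ∀ (q : List Bool) (c : ℕ → List Prop),
    Qm (q ++ [false]) M c ↔
      Qm q (fun c => ∃ x : ℕ → Prop, CE x ∧ M (fun p => x p :: c p)) c := by
  intro q
  induction q with
  | nil => intro c; exact Iff.rfl
  | cons b q ih =>
    intro c
    cases b with
    | true => exact forall_congr' fun x => imp_congr Iff.rfl (ih _)
    | false => exact exists_congr fun x => and_congr Iff.rfl (ih _)

theorem CBR (hACL : ACL_stmt) (hBTM : BTM_stmt) : CBR_stmt := by
  intro α K q
  have hone : ∃ y : ℕ → Po.one, CE y := ⟨fun _ => (), hACL.1 Po.one ()⟩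
  induction q with
  | nil =>
    intro M
    exact Iff.rfl
  | cons b q ih =>
    intro M
    cases b with
    | true =>
      have h1 := ih (fun X c => ∀ x : ℕ → Prop, CE x → M X (fun p => x p :: c p))
      have h2 : Tr (mkP α K (true :: q)) (fun γ => M (fun p => rdx (true :: q) (γ p))
          (fun p => rdb (true :: q) (γ p))) ↔ Tr (mkP α K q) (fun γ => ∀ x : ℕ → Prop, CE x →
            M (fun p => rdx q (γ p)) (fun p => x p :: rdb q (γ p))) := by
        constructor
        · intro h
          refine hBTM _ _ _ _ ?_ h
          rintro γ hγ ⟨y, -, hy⟩ x hx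
          exact hy x hx
        · intro h
          have h3 : Tr (mkP α K q) (fun γ => ∃ y : ℕ → Po.one, CE y ∧ ∀ x : ℕ → Po.two, CE x →
              M (fun p => rdx q (γ p)) (fun p => x p :: rdb q (γ p))) := by
            refine hBTM _ _ _ _ ?_ h
            intro γ hγ hx
            obtain ⟨y, hy⟩ := hone
            exact ⟨y, hy, hx⟩
          exact h3
      rw [h2, h1, List.reverse_cons]
      refine forall_congr' fun x => imp_congr Iff.rfl (imp_congr Iff.rfl ?_)
      exact (CBR_append_true _ _ _).symm
    | false =>
      have h1 := ih (fun X c => ∃ x : ℕ → Prop, CE x ∧ M X (fun p => x p :: c p))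
      have h2 : Tr (mkP α K (false :: q)) (fun γ => M (fun p => rdx (false :: q) (γ p))
          (fun p => rdb (false :: q) (γ p))) ↔ Tr (mkP α K q) (fun γ => ∃ x : ℕ → Prop, CE x ∧
            M (fun p => rdx q (γ p)) (fun p => x p :: rdb q (γ p))) := by
        constructor
        · intro h
          refine hBTM _ _ _ _ ?_ h
          rintro γ hγ ⟨y, hy, hx⟩
          obtain ⟨z, hz⟩ := hone
          exact ⟨y, hy, hx z hz⟩
        · intro h
          have h3 : Tr (mkP α K q) (fun γ => ∃ y : ℕ → Po.two, CE y ∧ ∀ x : ℕ → Po.one, CE x →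
              M (fun p => rdx q (γ p)) (fun p => y p :: rdb q (γ p))) := by
            refine hBTM _ _ _ _ ?_ h
            rintro γ hγ ⟨y, hy, hM⟩
            exact ⟨y, hy, fun x _ => hM⟩
          exact h3
      rw [h2, h1, List.reverse_cons]
      refine forall_congr' fun x => imp_congr Iff.rfl (imp_congr Iff.rfl ?_)
      exact (CBR_append_false _ _ _).symm

end

end PF
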